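import Pool.Agent.AT5.Stmts2
import Pool.Agent.Helper77_K9.INT

/-!
# Squad AT5, row SEI: two virtual characters
-/

open scoped BigOperators

set_option autoImplicit false

noncomputable section

namespace Pool.Agent.PP.T5.H81

open Pool.Agent.Helper51_AWC Pool.Agent.Helper79_WRA Pool.Agent.PP Pool.Agent.PP.KF
open Pool.Agent.PP.K9 Pool.Agent.PP.K9.H97 Pool.Agent.PP.H75 Pool.Agent.PP.T3 Pool.Agent.PP.T2

variable {G : Type} [Group G]

open Classical in
/-- the character induced from the trivial character of `P` -/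
def indt (P : Subgroup G) (g : G) : ℂ :=
  (Nat.card P : ℂ)⁻¹ * ∑ᶠ x : G, if x⁻¹ * g * x ∈ P then (1 : ℂ) else 0

theorem one_irr [Finite G] : (fun _ : G => (1 : ℂ)) ∈ Irr G := by
  have := linear_mem_Irr (1 : G →* ℂˣ)
  simpa using this

theorem indt_zi [Finite G] (P : Subgroup G) : indt P ∈ ZI G := by
  classical
  have := Fintype.ofFinite G
  have := Fintype.ofFinite P
  apply K9.H25.mem_zi_of
  · intro x y
    unfold indt
    rw [finsum_eq_sum_of_fintype, finsum_eq_sum_of_fintype]
    congr 1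
    refine Fintype.sum_equiv (Equiv.mulLeft y⁻¹) _ _ fun t => ?_
    simp only [Equiv.coe_mulLeft, mul_inv_rev, inv_inv, mul_assoc]
  · intro η hη
    obtain ⟨m, hm⟩ := K9.H25.zi_ipn (AddSubgroup.subset_closure (one_irr (G := P)))
      (K9.H77.zi_res P hη)
    refine ⟨m, ?_⟩
    rw [← hm, K9.H25.ipn_eq, K9.H25.ipn_eq]
    have hG : (Fintype.card G : ℂ) ≠ 0 := by exact_mod_cast Fintype.card_ne_zero
    have h1 : ∑ x : G, indt P x * starRingEnd ℂ (η x) =
        (Fintype.card P : ℂ)⁻¹ * (Fintype.card G * ∑ g : G,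
          (if g ∈ P then (1 : ℂ) else 0) * starRingEnd ℂ (η g)) := by
      have e1 : ∑ x : G, indt P x * starRingEnd ℂ (η x) = (Fintype.card P : ℂ)⁻¹ *
          ∑ y : G, ∑ x : G, (if y⁻¹ * x * y ∈ P then (1 : ℂ) else 0) *
            starRingEnd ℂ (η x) := by
        rw [Finset.sum_comm, Finset.mul_sum]
        refine Finset.sum_congr rfl fun x _ => ?_
        unfold indt
        rw [finsum_eq_sum_of_fintype, Nat.card_eq_fintype_card, mul_assoc, Finset.sum_mul]
      rw [e1]
      congr 1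
      have e2 : ∀ y : G, ∑ x : G, (if y⁻¹ * x * y ∈ P then (1 : ℂ) else 0) *
            starRingEnd ℂ (η x) = ∑ g : G,
          (if g ∈ P then (1 : ℂ) else 0) * starRingEnd ℂ (η g) := by
        intro y
        refine Fintype.sum_equiv (MulAut.conj y⁻¹).toEquiv _ _ fun x => ?_
        have e3 : (MulAut.conj y⁻¹).toEquiv x = y⁻¹ * x * y := by
          simp [MulAut.conj_apply]
        rw [e3]
        congr 2
        have e4 := irr_conj hη x y⁻¹
        rw [inv_inv] at e4
        exact e4.symm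
      rw [Finset.sum_congr rfl fun y _ => e2 y, Finset.sum_const, Finset.card_univ,
        nsmul_eq_mul]
    have h2 : ∑ g : G, (if g ∈ P then (1 : ℂ) else 0) * starRingEnd ℂ (η g) =
        ∑ p : P, 1 * starRingEnd ℂ (η p) := by
      have e1 : ∑ g : G, (if g ∈ P then (1 : ℂ) else 0) * starRingEnd ℂ (η g) =
          ∑ g ∈ Finset.univ.filter (fun g => g ∈ P), 1 * starRingEnd ℂ (η g) := by
        rw [Finset.sum_filter]
        refine Finset.sum_congr rfl fun g _ => ?_
        split_ifs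
        · rfl
        · rw [zero_mul]
      rw [e1]
      exact Finset.sum_subtype _ (by simp) _
    rw [h1, h2]
    field_simp

theorem indt_one [Finite G] (P : Subgroup G) : indt P 1 = P.index := by
  classical
  have := Fintype.ofFinite G
  unfold indt
  rw [finsum_eq_sum_of_fintype]
  have h1 : ∀ x : G, (if x⁻¹ * 1 * x ∈ P then (1 : ℂ) else 0) = 1 := by
    intro x
    rw [if_pos]
    rw [mul_one, inv_mul_cancel]
    exact P.one_mem
  rw [Finset.sum_congr rfl fun x _ => h1 x, Finset.sum_const, Finset.card_univ, nsmul_eq_mul,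
    mul_one, ← Nat.card_eq_fintype_card, ← P.card_mul_index]
  have h2 : (Nat.card P : ℂ) ≠ 0 := by exact_mod_cast Nat.card_pos.ne'
  push_cast
  field_simp

theorem indt_zero {r : ℕ} {P : Subgroup G} (hP : IsPGroup r P) {g : G} (hg : ¬ El r g) :
    indt P g = 0 := by
  classical
  unfold indt
  have h1 : ∀ x : G, (if x⁻¹ * g * x ∈ P then (1 : ℂ) else 0) = 0 := by
    intro x
    rw [if_neg]
    intro hx
    apply hg
    obtain ⟨n, hn⟩ := hP ⟨_, hx⟩
    refine ⟨n, ?_⟩
    have h2 : (x⁻¹ * g * x) ^ r ^ n = 1 := by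
      have := congrArg Subtype.val hn
      simpa using this
    have h3 : (x⁻¹ * g * x) ^ r ^ n = x⁻¹ * g ^ r ^ n * x := by
      have := conj_pow (i := r ^ n) (a := x⁻¹) (b := g)
      rwa [inv_inv] at this
    rw [h3] at h2
    calc g ^ r ^ n = x * (x⁻¹ * g ^ r ^ n * x) * x⁻¹ := by group
      _ = 1 := by rw [h2]; group
  simp_rw [h1]
  rw [finsum_zero, mul_zero]

theorem zi_pow (ada : K9.AdaStmt) [Finite G] (N : ℕ) {f : G → ℂ} (hf : f ∈ ZI G) :
    (fun g => f (g ^ N)) ∈ ZI G := by
  refine K9.H25.mem_zi_of (fun x y => ?_) fun η hη =>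
    ada G N f hf η (AddSubgroup.subset_closure hη)
  have h1 : (y * x * y⁻¹) ^ N = y * x ^ N * y⁻¹ := conj_pow
  rw [h1]
  exact K9.H25.zi_cl hf _ _

/-- an element of two coprime prime power orders -/
theorem el_el {r ℓ : ℕ} (h : Nat.Coprime r ℓ) {g : G} (h1 : El r g) (h2 : El ℓ g) : g = 1 := by
  obtain ⟨m, hm⟩ := h1
  obtain ⟨n, hn⟩ := h2
  have e1 := orderOf_dvd_of_pow_eq_one hm
  have e2 := orderOf_dvd_of_pow_eq_one hn
  have e3 : Nat.Coprime (r ^ m) (ℓ ^ n) := Nat.Coprime.pow _ _ h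
  exact orderOf_eq_one_iff.1 (Nat.dvd_one.1 (e3 ▸ Nat.dvd_gcd e1 e2))

theorem reg_el {ℓ : ℕ} {g : G} (h1 : Reg ℓ g) (h2 : El ℓ g) : g = 1 := by
  obtain ⟨n, hn⟩ := h2
  have e2 := orderOf_dvd_of_pow_eq_one hn
  have e3 : Nat.Coprime (orderOf g) (ℓ ^ n) := Nat.Coprime.pow_right n h1
  exact orderOf_eq_one_iff.1 (Nat.dvd_one.1 (e3 ▸ Nat.dvd_gcd dvd_rfl e2))

/-- a power which gives the `ℓ`-part -/
theorem prt' (prt : K9.PrtStmt) (ℓ : ℕ) [Fact ℓ.Prime] (G : Type) [Group G] [Finite G] :
    ∃ N : ℕ, (∀ g : G, El ℓ (g ^ N)) ∧ ∀ g : G, g ^ N = 1 ↔ Reg ℓ g := by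
  obtain ⟨N, h1, h2⟩ := prt ℓ G
  have h3 : ∀ g : G, g ^ (1 + (Nat.card G - 1) * N) = (g ^ N)⁻¹ * g := by
    intro g
    have hc : 0 < Nat.card G := Nat.card_pos
    have h4 : (g ^ N) ^ (Nat.card G - 1) = (g ^ N)⁻¹ := by
      rw [eq_inv_iff_mul_eq_one, ← pow_succ, Nat.sub_add_cancel hc]
      exact pow_card_eq_one'
    rw [pow_add, pow_one, mul_comm _ N, pow_mul, h4]
    exact ((Commute.refl g).pow_right N).inv_right.eq
  refine ⟨1 + (Nat.card G - 1) * N, fun g => ?_, fun g => ?_⟩
  · rw [h3]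
    exact (h1 g).2
  · rw [h3, inv_mul_eq_one]
    constructor
    · intro h
      rw [← h]
      exact (h1 g).1
    · intro h
      have := h2 g 1 (Commute.one_right g) h ⟨0, one_pow _⟩
      rwa [mul_one] at this

theorem gcd_mem {n ℓ c : ℕ} [hℓ : Fact ℓ.Prime] (hn : n ≠ 0) (A : AddSubgroup ℤ)
    (h1 : (n : ℤ) ∈ A) (hc : n = ℓ ^ c * (n / ℓ ^ c)) (hc' : ¬ ℓ ∣ n / ℓ ^ c)
    (h2 : ∀ r : ℕ, r.Prime → r ≠ ℓ → ∃ k : ℕ, (k : ℤ) ∈ A ∧ ¬ r ∣ k) : ((ℓ ^ c : ℕ) : ℤ) ∈ A := by
  obtain ⟨a, rfl⟩ := Int.subgroup_cyclic A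
  have h3 : ∀ k : ℕ, (k : ℤ) ∈ AddSubgroup.closure ({a} : Set ℤ) ↔ a.natAbs ∣ k := by
    intro k
    rw [AddSubgroup.mem_closure_singleton]
    constructor
    · rintro ⟨z, hz⟩
      rw [← Int.natCast_dvd_natCast, Int.natAbs_dvd]
      exact ⟨z, by rw [← hz, smul_eq_mul, mul_comm]⟩
    · intro h
      rw [← Int.natCast_dvd_natCast, Int.natAbs_dvd] at h
      obtain ⟨z, hz⟩ := h
      exact ⟨z, by rw [hz, smul_eq_mul, mul_comm]⟩
  rw [h3] at h1 ⊢
  have ha : a.natAbs ≠ 0 := by
    intro h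
    rw [h, zero_dvd_iff] at h1
    exact hn h1
  have h4 : Nat.Coprime a.natAbs (n / ℓ ^ c) := by
    apply Nat.Coprime.symm
    rw [Nat.coprime_iff_gcd_eq_one] at *
    by_contra hne
    obtain ⟨r, hr, hrd⟩ := Nat.exists_prime_and_dvd hne
    have hr1 := (Nat.dvd_gcd_iff.1 hrd).1
    have hr2 := (Nat.dvd_gcd_iff.1 hrd).2
    have hrl : r ≠ ℓ := by
      rintro rfl
      exact hc' hr1
    obtain ⟨k, hk, hk'⟩ := h2 r hr hrl
    rw [h3] at hk
    exact hk' (hr2.trans hk)
  rw [hc] at h1
  exact h4.dvd_of_dvd_mul_right h1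

theorem sei (ada : K9.AdaStmt) (prt : K9.PrtStmt) : SeiStmt := by
  classical
  intro ℓ hℓ H _ _ P
  have hprime := hℓ.out
  constructor
  · obtain ⟨N, hN1, hN2⟩ := prt' prt ℓ H
    -- the integers `n` with `n 1_reg` a virtual character
    let A : AddSubgroup ℤ :=
      { carrier := {n | (fun h : H => if Reg ℓ h then (n : ℂ) else 0) ∈ ZI H}
        zero_mem' := by
          have : (fun h : H => if Reg ℓ h then ((0 : ℤ) : ℂ) else 0) = 0 := by
            funext h
            split_ifs <;> simp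
          rw [Set.mem_ofPred_eq, this]
          exact AddSubgroup.zero_mem _
        add_mem' := by
          intro a b ha hb
          have : (fun h : H => if Reg ℓ h then ((a + b : ℤ) : ℂ) else 0) =
              (fun h : H => if Reg ℓ h then (a : ℂ) else 0) +
                fun h : H => if Reg ℓ h then (b : ℂ) else 0 := by
            funext h
            rw [Pi.add_apply]
            split_ifs
            · push_cast
              rfl
            · rw [add_zero]
          rw [Set.mem_ofPred_eq, this]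
          exact AddSubgroup.add_mem _ ha hb
        neg_mem' := by
          intro a ha
          have : (fun h : H => if Reg ℓ h then ((-a : ℤ) : ℂ) else 0) =
              -(fun h : H => if Reg ℓ h then (a : ℂ) else 0) := by
            funext h
            rw [Pi.neg_apply]
            split_ifs
            · push_cast
              rfl
            · rw [neg_zero]
          rw [Set.mem_ofPred_eq, this]
          exact AddSubgroup.neg_mem _ ha }
    have hA : ∀ (r : ℕ) (Q : Subgroup H), IsPGroup r Q → Nat.Coprime r ℓ →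
        ((Q.index : ℕ) : ℤ) ∈ A := by
      intro r Q hQ hr
      have h1 := zi_pow ada N (indt_zi Q)
      have h2 : (fun g : H => indt Q (g ^ N)) =
          fun h : H => if Reg ℓ h then (((Q.index : ℕ) : ℤ) : ℂ) else 0 := by
        funext g
        split_ifs with hg
        · rw [(hN2 g).2 hg, indt_one]
          push_cast
          rfl
        · apply indt_zero hQ
          intro he
          exact hg ((hN2 g).1 (el_el hr he (hN1 g)))
      rw [h2] at h1
      exact h1
    have hcard : Nat.card H ≠ 0 := Nat.card_pos.ne'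
    have h1 : ((Nat.card H : ℕ) : ℤ) ∈ A := by
      have := hA 1 ⊥ (IsPGroup.of_bot) (Nat.coprime_one_left ℓ)
      rwa [Subgroup.index_bot] at this
    have hP := P.card_eq_multiplicity
    have h2 : ((ℓ ^ (Nat.card H).factorization ℓ : ℕ) : ℤ) ∈ A := by
      refine gcd_mem hcard A h1 (Nat.ordProj_mul_ordCompl_eq_self _ _).symm
        (Nat.not_dvd_ordCompl hprime hcard) ?_
      intro r hr hrl
      have : Fact r.Prime := ⟨hr⟩
      obtain ⟨Q⟩ : Nonempty (Sylow r H) := inferInstance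
      exact ⟨(Q : Subgroup H).index, hA r Q Q.isPGroup' ((Nat.coprime_primes hr hprime).2 hrl),
        Q.not_dvd_index⟩
    rw [← hP] at h2
    have h3 : (fun h : H => if Reg ℓ h then ((((Nat.card P : ℕ) : ℤ)) : ℂ) else 0) ∈ ZI H := h2
    have h4 : (fun h : H => if Reg ℓ h then ((((Nat.card P : ℕ) : ℤ)) : ℂ) else 0) =
        fun h : H => if Reg ℓ h then (Nat.card P : ℂ) else 0 := by
      funext h
      split_ifs
      · push_cast
        rfl
      · rfl
    rw [h4] at h3
    exact h3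
  · obtain ⟨N, hN1, hN2⟩ := prt ℓ H
    have h1 := zi_pow ada N (indt_zi (P : Subgroup H))
    have h2 : (fun g : H => indt (P : Subgroup H) (g ^ N)) =
        fun h : H => if El ℓ h then ((P : Subgroup H).index : ℂ) else 0 := by
      funext g
      split_ifs with hg
      · have h3 := hN2 1 g (Commute.one_left g)
          (by unfold Reg; rw [orderOf_one]; exact Nat.coprime_one_left ℓ) hg
        rw [one_mul] at h3
        rw [h3, indt_one]
      · apply indt_zero P.isPGroup'
        intro he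
        apply hg
        have h3 := reg_el (hN1 g).1 he
        obtain ⟨n, hn⟩ := (hN1 g).2
        rw [h3, inv_one, one_mul] at hn
        exact ⟨n, hn⟩
    rw [h2] at h1
    exact h1

end Pool.Agent.PP.T5.H81
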